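import Mathlib

/-!
# Crossing forms of integer valued functions on the cube

`S V τ a b` is the bilinear form of the bipartite graph of pairs `x`, `x + e_i` of the cube with
`V x < τ ≤ V (x + e_i)`; `NB V L` bounds its norm by `L` for every threshold `τ`.
-/

set_option linter.unusedSectionVars false

open Finset

namespace H54SS

variable {ι κ : Type} [Fintype ι] [DecidableEq ι] [Fintype κ] [DecidableEq κ]

/-- Raise the coordinate `i`. -/
def up (x : ι → Bool) (i : ι) : ι → Bool := Function.update x i true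

/-- Lower the coordinate `i`. -/
def dn (x : ι → Bool) (i : ι) : ι → Bool := Function.update x i false

/-- Number of ones. -/
def cnt (x : ι → Bool) : ℤ := ∑ i, if x i = true then 1 else 0

/-- The crossing form of `V` at the threshold `τ`. -/
noncomputable def S (V : (ι → Bool) → ℤ) (τ : ℤ) (a b : (ι → Bool) → ℝ) : ℝ :=
  ∑ x, ∑ i, if x i = false ∧ V x < τ ∧ τ ≤ V (up x i) then a x * b (up x i) else 0

/-- The crossing forms of `V` have norm at most `L`. -/
def NB (V : (ι → Bool) → ℤ) (L : ℝ) : Prop :=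
  ∀ τ a b, S V τ a b ≤ L / 2 * (∑ x, a x ^ 2 + ∑ x, b x ^ 2)

/-- `x` is a lower end of a crossing edge. -/
def Ac (V : (ι → Bool) → ℤ) (τ : ℤ) (x : ι → Bool) : Prop :=
  V x < τ ∧ ∃ i, x i = false ∧ τ ≤ V (up x i)

/-- `x` is an upper end of a crossing edge. -/
def Bc (V : (ι → Bool) → ℤ) (τ : ℤ) (x : ι → Bool) : Prop :=
  τ ≤ V x ∧ ∃ i, x i = true ∧ V (dn x i) < τ

lemma dn_up {x : ι → Bool} {i : ι} (h : x i = false) : dn (up x i) i = x := by
  unfold dn up
  rw [Function.update_idem, ← h, Function.update_eq_self]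

lemma up_dn {x : ι → Bool} {i : ι} (h : x i = true) : up (dn x i) i = x := by
  unfold dn up
  rw [Function.update_idem, ← h, Function.update_eq_self]

lemma up_self {x : ι → Bool} {i : ι} : up x i i = true := by
  unfold up; rw [Function.update_self]

lemma dn_self {x : ι → Bool} {i : ι} : dn x i i = false := by
  unfold dn; rw [Function.update_self]

lemma up_of {x : ι → Bool} {i : ι} (h : x i = true) : up x i = x := by
  unfold up
  rw [← h, Function.update_eq_self]

lemma dn_of {x : ι → Bool} {i : ι} (h : x i = false) : dn x i = x := by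
  unfold dn
  rw [← h, Function.update_eq_self]

open Classical in
/-- The localised and scaled form of `NB`. -/
lemma NB.local {V : (ι → Bool) → ℤ} {L : ℝ} (h : NB V L) (τ : ℤ) (a b : (ι → Bool) → ℝ)
    {s : ℝ} (hs : 0 < s) :
    S V τ a b ≤ L / 2 * (∑ x, (if Ac V τ x then s else 0) * a x ^ 2 +
      ∑ x, (if Bc V τ x then s⁻¹ else 0) * b x ^ 2) := by
  have h1 := h τ (fun x => if Ac V τ x then √s * a x else 0)
    (fun x => if Bc V τ x then √(s⁻¹) * b x else 0)
  have h2 : S V τ (fun x => if Ac V τ x then √s * a x else 0)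
      (fun x => if Bc V τ x then √(s⁻¹) * b x else 0) = S V τ a b := by
    unfold S
    apply Finset.sum_congr rfl; intro x _
    apply Finset.sum_congr rfl; intro i _
    by_cases hc : x i = false ∧ V x < τ ∧ τ ≤ V (up x i)
    · have hA : Ac V τ x := ⟨hc.2.1, i, hc.1, hc.2.2⟩
      have hB : Bc V τ (up x i) := ⟨hc.2.2, i, up_self, by rw [dn_up hc.1]; exact hc.2.1⟩
      rw [if_pos hc, if_pos hc]
      simp only [if_pos hA, if_pos hB]
      have : √s * √(s⁻¹) = 1 := by
        rw [← Real.sqrt_mul hs.le, mul_inv_cancel₀ hs.ne', Real.sqrt_one]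
      calc √s * a x * (√(s⁻¹) * b (up x i)) = (√s * √(s⁻¹)) * (a x * b (up x i)) := by ring
        _ = _ := by rw [this, one_mul]
    · rw [if_neg hc, if_neg hc]
  rw [h2] at h1
  refine h1.trans (le_of_eq ?_)
  congr 1
  congr 1
  · apply Finset.sum_congr rfl; intro x _
    split_ifs
    · rw [mul_pow, Real.sq_sqrt hs.le]
    · ring
  · apply Finset.sum_congr rfl; intro x _
    split_ifs
    · rw [mul_pow, Real.sq_sqrt (by positivity)]
    · ring

/-- Combination of two functions: the second is rounded down to a multiple of `c`. -/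
def comb (V : (ι → Bool) → ℤ) (W : (κ → Bool) → ℤ) (c : ℤ) (x : ι ⊕ κ → Bool) : ℤ :=
  V (fun i => x (Sum.inl i)) + c * (W (fun j => x (Sum.inr j)) / c)

lemma comb_elim (V : (ι → Bool) → ℤ) (W : (κ → Bool) → ℤ) (c : ℤ) (z : ι → Bool) (w : κ → Bool) :
    comb V W c (Sum.elim z w) = V z + c * (W w / c) := rfl

lemma up_inl (z : ι → Bool) (w : κ → Bool) (i : ι) :
    up (Sum.elim z w) (Sum.inl i) = Sum.elim (up z i) w := by
  unfold up; rw [Sum.update_elim_inl]

lemma up_inr (z : ι → Bool) (w : κ → Bool) (j : κ) :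
    up (Sum.elim z w) (Sum.inr j) = Sum.elim z (up w j) := by
  unfold up; rw [Sum.update_elim_inr]

lemma dn_inl (z : ι → Bool) (w : κ → Bool) (i : ι) :
    dn (Sum.elim z w) (Sum.inl i) = Sum.elim (dn z i) w := by
  unfold dn; rw [Sum.update_elim_inl]

lemma dn_inr (z : ι → Bool) (w : κ → Bool) (j : κ) :
    dn (Sum.elim z w) (Sum.inr j) = Sum.elim z (dn w j) := by
  unfold dn; rw [Sum.update_elim_inr]

lemma sum_cube {M : Type*} [AddCommMonoid M] (f : (ι ⊕ κ → Bool) → M) :
    ∑ x, f x = ∑ z : ι → Bool, ∑ w : κ → Bool, f (Sum.elim z w) := by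
  rw [← (Equiv.sumArrowEquivProdArrow ι κ Bool).symm.sum_comp, Fintype.sum_prod_type]
  rfl

lemma exists_elim (x : ι ⊕ κ → Bool) : ∃ z w, x = Sum.elim z w :=
  ⟨fun i => x (Sum.inl i), fun j => x (Sum.inr j), by
    funext t; cases t <;> rfl⟩

/-- The threshold for the second function. -/
def qs (V : (ι → Bool) → ℤ) (τ c : ℤ) (z : ι → Bool) : ℤ := -((V z - τ) / c)

lemma lt_qs {V : (ι → Bool) → ℤ} {τ c : ℤ} (hc : 0 < c) (z : ι → Bool) (q : ℤ) :
    q < qs V τ c z ↔ V z + c * q < τ := by
  unfold qs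
  constructor
  · intro h
    have h1 : (V z - τ) / c < -q := by linarith
    have h2 := (Int.ediv_lt_iff_lt_mul hc).1 h1
    nlinarith
  · intro h
    have h2 : (V z - τ) < -q * c := by nlinarith
    have h1 := (Int.ediv_lt_iff_lt_mul hc).2 h2
    linarith

lemma S_comb (V : (ι → Bool) → ℤ) (W : (κ → Bool) → ℤ) {c : ℤ} (hc : 0 < c) (τ : ℤ)
    (a b : (ι ⊕ κ → Bool) → ℝ) :
    S (comb V W c) τ a b =
      (∑ w, S V (τ - c * (W w / c)) (fun z => a (Sum.elim z w)) (fun z => b (Sum.elim z w))) +
      ∑ z, S W (c * qs V τ c z) (fun w => a (Sum.elim z w)) (fun w => b (Sum.elim z w)) := by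
  have h0 : S (comb V W c) τ a b = ∑ z : ι → Bool, ∑ w : κ → Bool,
      ((∑ i, if z i = false ∧ V z < τ - c * (W w / c) ∧ τ - c * (W w / c) ≤ V (up z i)
          then a (Sum.elim z w) * b (Sum.elim (up z i) w) else 0) +
       ∑ j, if w j = false ∧ W w < c * qs V τ c z ∧ c * qs V τ c z ≤ W (up w j)
          then a (Sum.elim z w) * b (Sum.elim z (up w j)) else 0) := by
    unfold S
    rw [sum_cube]
    apply Finset.sum_congr rfl; intro z _
    apply Finset.sum_congr rfl; intro w _
    rw [Fintype.sum_sum_type]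
    congr 1
    · apply Finset.sum_congr rfl; intro i _
      rw [up_inl, comb_elim, comb_elim, Sum.elim_inl]
      have : (z i = false ∧ V z + c * (W w / c) < τ ∧ τ ≤ V (up z i) + c * (W w / c)) ↔
          (z i = false ∧ V z < τ - c * (W w / c) ∧ τ - c * (W w / c) ≤ V (up z i)) := by
        constructor
        · rintro ⟨h1, h2, h3⟩; exact ⟨h1, by linarith, by linarith⟩
        · rintro ⟨h1, h2, h3⟩; exact ⟨h1, by linarith, by linarith⟩
      simp only [this]
    · apply Finset.sum_congr rfl; intro j _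
      rw [up_inr, comb_elim, comb_elim, Sum.elim_inr]
      have h1 : V z + c * (W w / c) < τ ↔ W w < c * qs V τ c z := by
        rw [← lt_qs hc, Int.ediv_lt_iff_lt_mul hc, mul_comm]
      have h2 : τ ≤ V z + c * (W (up w j) / c) ↔ c * qs V τ c z ≤ W (up w j) := by
        rw [← not_lt, ← not_lt, not_iff_not, ← lt_qs hc, Int.ediv_lt_iff_lt_mul hc, mul_comm]
      simp only [h1, h2]
  rw [h0]
  simp_rw [Finset.sum_add_distrib]
  congr 1
  rw [Finset.sum_comm]
  rfl

end H54SS
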