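import Pool.Agent.H54.SS.Basic

/-!
# The crossing norm of a combination

If two flips change `V` and `W` by at most `c`, the crossing norm of
`V z + c * ⌊W w / c⌋` is at most `√2` times the larger crossing norm.
-/

set_option linter.unusedSectionVars false

open Finset

namespace H54SS

variable {ι κ : Type} [Fintype ι] [DecidableEq ι] [Fintype κ] [DecidableEq κ]

/-- Raising one coordinate and lowering another changes `V` by at most `b`. -/
def J2 (V : (ι → Bool) → ℤ) (b : ℤ) : Prop := ∀ x i j, V (up x i) ≤ V (dn x j) + b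

/-- One coordinate changes `V` by at most `a`. -/
def J1 (V : (ι → Bool) → ℤ) (a : ℤ) : Prop := ∀ x i, V (up x i) ≤ V (dn x i) + a

lemma two_inv : (√2 : ℝ)⁻¹ + (√2)⁻¹ = √2 := by
  have h : (√2 : ℝ) * √2 = 2 := Real.mul_self_sqrt (by norm_num)
  have h0 : (√2 : ℝ) ≠ 0 := by positivity
  field_simp
  nlinarith

lemma inv_le : (√2 : ℝ)⁻¹ ≤ √2 := by
  have h1 : (1 : ℝ) ≤ √2 := Real.one_le_sqrt.2 (by norm_num)
  exact (inv_le_one_of_one_le₀ h1).trans h1

open Classical in
theorem NB.comb {V : (ι → Bool) → ℤ} {W : (κ → Bool) → ℤ} {c : ℤ} {L : ℝ} (hc : 0 < c)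
    (hV : NB V L) (hW : NB W L) (hL : 0 ≤ L) (jV : J2 V c) (jW : J2 W c) :
    NB (comb V W c) (L * √2) := by
  intro τ a b
  rw [S_comb V W hc]
  set UW : (κ → Bool) → Prop := fun w => ∃ j, w j = false ∧ W w / c < W (up w j) / c with hUW
  set UV : (ι → Bool) → Prop := fun z => ∃ i, z i = false ∧ τ - c * (qs V τ c z - 1) ≤ V (up z i)
    with hUV
  set sW : (κ → Bool) → ℝ := fun w => if UW w then (√2)⁻¹ else √2 with hsW
  set sV : (ι → Bool) → ℝ := fun z => if UV z then (√2)⁻¹ else √2 with hsV
  have sW0 : ∀ w, 0 < sW w := by intro w; simp only [hsW]; split_ifs <;> positivity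
  have sV0 : ∀ z, 0 < sV z := by intro z; simp only [hsV]; split_ifs <;> positivity
  have sW1 : ∀ w, sW w ≤ √2 := by
    intro w; simp only [hsW]; split_ifs
    · exact inv_le
    · exact le_rfl
  have sV1 : ∀ w, sV w ≤ √2 := by
    intro w; simp only [hsV]; split_ifs
    · exact inv_le
    · exact le_rfl
  have sW2 : ∀ w, (sW w)⁻¹ ≤ √2 := by
    intro w; simp only [hsW]; split_ifs
    · rw [inv_inv]
    · exact inv_le
  have sV2 : ∀ w, (sV w)⁻¹ ≤ √2 := by
    intro w; simp only [hsV]; split_ifs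
    · rw [inv_inv]
    · exact inv_le
  have h1 : ∀ w, S V (τ - c * (W w / c)) (fun z => a (Sum.elim z w)) (fun z => b (Sum.elim z w)) ≤
      L / 2 * (∑ z, (if Ac V (τ - c * (W w / c)) z then sW w else 0) * a (Sum.elim z w) ^ 2 +
        ∑ z, (if Bc V (τ - c * (W w / c)) z then (sW w)⁻¹ else 0) * b (Sum.elim z w) ^ 2) :=
    fun w => hV.local _ _ _ (sW0 w)
  have h2 : ∀ z, S W (c * qs V τ c z) (fun w => a (Sum.elim z w)) (fun w => b (Sum.elim z w)) ≤
      L / 2 * (∑ w, (if Ac W (c * qs V τ c z) w then sV z else 0) * a (Sum.elim z w) ^ 2 +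
        ∑ w, (if Bc W (c * qs V τ c z) w then (sV z)⁻¹ else 0) * b (Sum.elim z w) ^ 2) :=
    fun z => hW.local _ _ _ (sV0 z)
  have p1 : ∀ z w, (if Ac V (τ - c * (W w / c)) z then sW w else 0) +
      (if Ac W (c * qs V τ c z) w then sV z else 0) ≤ √2 := by
    intro z w
    by_cases hA : Ac V (τ - c * (W w / c)) z
    · by_cases hA' : Ac W (c * qs V τ c z) w
      · rw [if_pos hA, if_pos hA']
        obtain ⟨hA1, i, hi, hA2⟩ := hA
        obtain ⟨hB1, j, hj, hB2⟩ := hA'
        have e1 : W w / c < qs V τ c z := by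
          rw [Int.ediv_lt_iff_lt_mul hc, mul_comm]; exact hB1
        have e2 : qs V τ c z ≤ W (up w j) / c := by
          rw [Int.le_ediv_iff_mul_le hc, mul_comm]; exact hB2
        have e3 : W (up w j) ≤ W w + c := by
          have := jW w j j
          rwa [dn_of hj] at this
        have e4 : qs V τ c z ≤ W w / c + 1 := by
          have h5 : qs V τ c z - 1 ≤ W w / c := by
            rw [Int.le_ediv_iff_mul_le hc]
            nlinarith
          linarith
        have u1 : UW w := ⟨j, hj, by linarith⟩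
        have e5 : W w / c = qs V τ c z - 1 := by omega
        have u2 : UV z := ⟨i, hi, by rw [← e5]; exact hA2⟩
        simp only [hsW, hsV, if_pos u1, if_pos u2]
        exact two_inv.le
      · rw [if_pos hA, if_neg hA', add_zero]; exact sW1 w
    · rw [if_neg hA, zero_add]
      split_ifs
      · exact sV1 z
      · positivity
  have p2 : ∀ z w, (if Bc V (τ - c * (W w / c)) z then (sW w)⁻¹ else 0) +
      (if Bc W (c * qs V τ c z) w then (sV z)⁻¹ else 0) ≤ √2 := by
    intro z w
    by_cases hA : Bc V (τ - c * (W w / c)) z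
    · by_cases hA' : Bc W (c * qs V τ c z) w
      · rw [if_pos hA, if_pos hA']
        obtain ⟨hA1, i, hi, hA2⟩ := hA
        obtain ⟨hB1, j, hj, hB2⟩ := hA'
        have e1 : qs V τ c z ≤ W w / c := by
          rw [Int.le_ediv_iff_mul_le hc, mul_comm]; exact hB1
        have e3 : W w ≤ W (dn w j) + c := by
          have := jW w j j
          rwa [up_of hj] at this
        have e4 : W w / c < qs V τ c z + 1 := by
          rw [Int.ediv_lt_iff_lt_mul hc]
          nlinarith
        have e5 : W w / c = qs V τ c z := by omega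
        have u1 : ¬ UW w := by
          rintro ⟨j', hj', hlt⟩
          have h5 : W w / c + 1 ≤ W (up w j') / c := by linarith
          rw [Int.le_ediv_iff_mul_le hc, e5] at h5
          have := jW w j' j
          nlinarith
        have u2 : ¬ UV z := by
          rintro ⟨i', hi', hle⟩
          rw [e5] at hA2
          have := jV z i' i
          nlinarith
        simp only [hsW, hsV, if_neg u1, if_neg u2]
        exact two_inv.le
      · rw [if_pos hA, if_neg hA', add_zero]; exact sW2 w
    · rw [if_neg hA, zero_add]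
      split_ifs
      · exact sV2 z
      · positivity
  have h3 := add_le_add (Finset.sum_le_sum fun w (_ : w ∈ univ) => h1 w)
    (Finset.sum_le_sum fun z (_ : z ∈ univ) => h2 z)
  refine h3.trans ?_
  rw [← Finset.mul_sum, ← Finset.mul_sum, ← mul_add]
  have h4 : L * √2 / 2 * (∑ x, a x ^ 2 + ∑ x, b x ^ 2) =
      L / 2 * (√2 * (∑ x, a x ^ 2 + ∑ x, b x ^ 2)) := by ring
  rw [h4]
  apply mul_le_mul_of_nonneg_left _ (by positivity)
  rw [sum_cube (fun x => a x ^ 2), sum_cube (fun x => b x ^ 2)]
  have h5 : (∑ w, (∑ z, (if Ac V (τ - c * (W w / c)) z then sW w else 0) * a (Sum.elim z w) ^ 2 +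
        ∑ z, (if Bc V (τ - c * (W w / c)) z then (sW w)⁻¹ else 0) * b (Sum.elim z w) ^ 2)) +
      ∑ z, (∑ w, (if Ac W (c * qs V τ c z) w then sV z else 0) * a (Sum.elim z w) ^ 2 +
        ∑ w, (if Bc W (c * qs V τ c z) w then (sV z)⁻¹ else 0) * b (Sum.elim z w) ^ 2) =
      ∑ z, ∑ w, (((if Ac V (τ - c * (W w / c)) z then sW w else 0) +
          (if Ac W (c * qs V τ c z) w then sV z else 0)) * a (Sum.elim z w) ^ 2 +
        ((if Bc V (τ - c * (W w / c)) z then (sW w)⁻¹ else 0) +
          (if Bc W (c * qs V τ c z) w then (sV z)⁻¹ else 0)) * b (Sum.elim z w) ^ 2) := by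
    have h6 : (∑ w, (∑ z, (if Ac V (τ - c * (W w / c)) z then sW w else 0) * a (Sum.elim z w) ^ 2 +
        ∑ z, (if Bc V (τ - c * (W w / c)) z then (sW w)⁻¹ else 0) * b (Sum.elim z w) ^ 2)) =
        ∑ z, ∑ w, ((if Ac V (τ - c * (W w / c)) z then sW w else 0) * a (Sum.elim z w) ^ 2 +
        (if Bc V (τ - c * (W w / c)) z then (sW w)⁻¹ else 0) * b (Sum.elim z w) ^ 2) := by
      rw [Finset.sum_comm]
      apply Finset.sum_congr rfl; intro w _
      rw [← Finset.sum_add_distrib]
    rw [h6, ← Finset.sum_add_distrib]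
    apply Finset.sum_congr rfl; intro z _
    rw [← Finset.sum_add_distrib, ← Finset.sum_add_distrib]
    apply Finset.sum_congr rfl; intro w _
    ring
  rw [h5, ← Finset.sum_add_distrib, Finset.mul_sum]
  apply Finset.sum_le_sum; intro z _
  rw [← Finset.sum_add_distrib, Finset.mul_sum]
  apply Finset.sum_le_sum; intro w _
  rw [mul_add]
  exact add_le_add (mul_le_mul_of_nonneg_right (p1 z w) (sq_nonneg _))
    (mul_le_mul_of_nonneg_right (p2 z w) (sq_nonneg _))

end H54SS
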