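import Pool.Agent.H54.SS.Rec

/-!
# Reindexing and adding irrelevant coordinates
-/

set_option linter.unusedSectionVars false

open Finset

namespace H54SS

variable {ι κ : Type} [Fintype ι] [DecidableEq ι] [Fintype κ] [DecidableEq κ]

lemma up_comp (e : ι ≃ κ) (y : κ → Bool) (i : ι) :
    (fun j => up y (e i) (e j)) = up (fun j => y (e j)) i := by
  funext j
  unfold up
  by_cases h : j = i
  · subst h; rw [Function.update_self, Function.update_self]
  · rw [Function.update_of_ne h, Function.update_of_ne (fun h' => h (e.injective h'))]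

lemma dn_comp (e : ι ≃ κ) (y : κ → Bool) (i : ι) :
    (fun j => dn y (e i) (e j)) = dn (fun j => y (e j)) i := by
  funext j
  unfold dn
  by_cases h : j = i
  · subst h; rw [Function.update_self, Function.update_self]
  · rw [Function.update_of_ne h, Function.update_of_ne (fun h' => h (e.injective h'))]

lemma NB.reindex {V : (ι → Bool) → ℤ} {L : ℝ} (h : NB V L) (e : ι ≃ κ) :
    NB (fun y : κ → Bool => V (fun i => y (e i))) L := by
  intro τ a b
  let E : (κ → Bool) ≃ (ι → Bool) := Equiv.arrowCongr e.symm (Equiv.refl Bool)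
  have hE : ∀ y : κ → Bool, E y = fun i => y (e i) := by
    intro y; rfl
  have h1 := h τ (fun x => a (E.symm x)) (fun x => b (E.symm x))
  have h2 : S V τ (fun x => a (E.symm x)) (fun x => b (E.symm x)) =
      S (fun y : κ → Bool => V (fun i => y (e i))) τ a b := by
    unfold S
    rw [← E.sum_comp]
    apply Finset.sum_congr rfl; intro y _
    rw [← e.sum_comp]
    apply Finset.sum_congr rfl; intro i _
    have h3 : up (E y) i = E (up y (e i)) := by
      rw [hE, hE, up_comp]
    rw [h3]
    simp only [Equiv.symm_apply_apply]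
    rw [hE, hE]
  have h4 : ∑ x, a (E.symm x) ^ 2 = ∑ y, a y ^ 2 := E.symm.sum_comp (fun y => a y ^ 2)
  have h5 : ∑ x, b (E.symm x) ^ 2 = ∑ y, b y ^ 2 := E.symm.sum_comp (fun y => b y ^ 2)
  rw [h2, h4, h5] at h1
  exact h1

lemma NB.extend {V : (ι → Bool) → ℤ} {L : ℝ} (h : NB V L) (κ : Type) [Fintype κ]
    [DecidableEq κ] : NB (fun x : ι ⊕ κ → Bool => V (fun i => x (Sum.inl i))) L := by
  intro τ a b
  have h1 : S (fun x : ι ⊕ κ → Bool => V (fun i => x (Sum.inl i))) τ a b =
      ∑ w : κ → Bool, S V τ (fun z => a (Sum.elim z w)) (fun z => b (Sum.elim z w)) := by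
    unfold S
    rw [sum_cube, Finset.sum_comm]
    apply Finset.sum_congr rfl; intro w _
    apply Finset.sum_congr rfl; intro z _
    rw [Fintype.sum_sum_type]
    have h2 : ∑ j : κ, (if (Sum.elim z w) (Sum.inr j) = false ∧
        V (fun i => Sum.elim z w (Sum.inl i)) < τ ∧
        τ ≤ V (fun i => up (Sum.elim z w) (Sum.inr j) (Sum.inl i))
        then a (Sum.elim z w) * b (up (Sum.elim z w) (Sum.inr j)) else 0) = 0 := by
      apply Finset.sum_eq_zero; intro j _
      rw [if_neg]
      rintro ⟨_, h3, h4⟩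
      rw [up_inr] at h4
      exact absurd (h3.trans_le h4) (lt_irrefl _)
    rw [h2, add_zero]
    apply Finset.sum_congr rfl; intro i _
    rw [up_inl]
    rfl
  rw [h1]
  have h2 := Finset.sum_le_sum fun (w : κ → Bool) (_ : w ∈ univ) =>
    h τ (fun z => a (Sum.elim z w)) (fun z => b (Sum.elim z w))
  refine h2.trans (le_of_eq ?_)
  rw [← Finset.mul_sum, Finset.sum_add_distrib, sum_cube (fun x => a x ^ 2),
    sum_cube (fun x => b x ^ 2)]
  rw [Finset.sum_comm (f := fun (w : κ → Bool) (z : ι → Bool) => a (Sum.elim z w) ^ 2),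
    Finset.sum_comm (f := fun (w : κ → Bool) (z : ι → Bool) => b (Sum.elim z w) ^ 2)]

lemma cnt_comp (e : ι ≃ κ) (y : κ → Bool) : cnt (fun i => y (e i)) = cnt y := by
  unfold cnt
  exact e.sum_comp (fun j => if y j = true then (1:ℤ) else 0)

lemma cnt_nonneg (y : κ → Bool) : 0 ≤ cnt y := by
  unfold cnt
  apply Finset.sum_nonneg; intro i _
  split_ifs <;> norm_num

lemma cnt_le_card (y : κ → Bool) : cnt y ≤ Fintype.card κ := by
  unfold cnt
  calc _ ≤ ∑ _i : κ, (1:ℤ) := by
        apply Finset.sum_le_sum; intro i _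
        split_ifs <;> norm_num
    _ = _ := by simp

/-- The functions of the recursion on `Fin n`. -/
theorem exists_fin {n m k : ℕ} (h : m * 2 ^ k ≤ n) : ∃ W : (Fin n → Bool) → ℤ,
    NB W ((m : ℝ) * √2 ^ k) ∧ (∀ x i, W (dn x i) ≤ W (up x i)) ∧ (∀ x, W x ≤ cnt x) ∧
      ∀ x, cnt x ≤ W x + (5 * 2 ^ k - Nat.fib (k + 5)) + (n - m * 2 ^ k) := by
  obtain ⟨ι, i1, i2, V, hcard, hV⟩ := exists_good m k
  have hc : Fintype.card (ι ⊕ Fin (n - m * 2 ^ k)) = Fintype.card (Fin n) := by
    rw [Fintype.card_sum, hcard, Fintype.card_fin, Fintype.card_fin]; omega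
  let e : ι ⊕ Fin (n - m * 2 ^ k) ≃ Fin n := Fintype.equivOfCardEq hc
  refine ⟨fun y => V (fun i => y (e (Sum.inl i))), ?_, ?_, ?_, ?_⟩
  · exact (hV.nb.extend (Fin (n - m * 2 ^ k))).reindex e
  · intro x i
    obtain ⟨t, rfl⟩ := e.surjective i
    have h1 := dn_comp e x t
    have h2 := up_comp e x t
    have h3 : (fun i => dn x (e t) (e (Sum.inl i))) =
        fun i => dn (fun j => x (e j)) t (Sum.inl i) := by
      funext i; exact congrFun h1 (Sum.inl i)
    have h4 : (fun i => up x (e t) (e (Sum.inl i))) =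
        fun i => up (fun j => x (e j)) t (Sum.inl i) := by
      funext i; exact congrFun h2 (Sum.inl i)
    beta_reduce
    rw [h3, h4]
    obtain ⟨z, w, hzw⟩ := exists_elim (fun j => x (e j))
    rw [hzw]
    rcases t with i | j
    · rw [up_inl, dn_inl]; exact hV.mono z i
    · rw [up_inr, dn_inr]; exact le_rfl
  · intro x
    have h1 := cnt_comp e x
    obtain ⟨z, w, hzw⟩ := exists_elim (fun j => x (e j))
    rw [hzw, cnt_elim] at h1
    have h2 : (fun i => x (e (Sum.inl i))) = z := by
      funext i; exact congrFun hzw (Sum.inl i)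
    beta_reduce
    rw [h2]
    have h3 := hV.le z
    have h4 := cnt_nonneg w
    linarith
  · intro x
    have h1 := cnt_comp e x
    obtain ⟨z, w, hzw⟩ := exists_elim (fun j => x (e j))
    rw [hzw, cnt_elim] at h1
    have h2 : (fun i => x (e (Sum.inl i))) = z := by
      funext i; exact congrFun hzw (Sum.inl i)
    beta_reduce
    rw [h2]
    have h3 := hV.ge z
    have h4 := cnt_le_card w
    rw [Fintype.card_fin, Nat.cast_sub h] at h4
    push_cast at h4
    linarith

end H54SS
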