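import Pool.Agent.H54.SS.Comb

/-!
# The recursion

`V_{k+1} (z, w) = V_k z + F_{k+3} * ⌊V_k w / F_{k+3}⌋` with Fibonacci numbers `F`.
-/

set_option linter.unusedSectionVars false

open Finset

namespace H54SS

variable {ι κ : Type} [Fintype ι] [DecidableEq ι] [Fintype κ] [DecidableEq κ]

/-- The invariants of the recursion. -/
structure Good (V : (ι → Bool) → ℤ) (L : ℝ) (a b e : ℤ) : Prop where
  nb : NB V L
  mono : ∀ x i, V (dn x i) ≤ V (up x i)
  j1 : J1 V a
  j2 : J2 V b
  le : ∀ x, V x ≤ cnt x
  ge : ∀ x, cnt x ≤ V x + e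

lemma cnt_elim (z : ι → Bool) (w : κ → Bool) : cnt (Sum.elim z w) = cnt z + cnt w := by
  unfold cnt
  rw [Fintype.sum_sum_type]
  rfl

lemma dn_le {V : (ι → Bool) → ℤ} (m : ∀ x i, V (dn x i) ≤ V (up x i)) (x : ι → Bool) (i : ι) :
    V (dn x i) ≤ V x := by
  cases h : x i
  · rw [dn_of h]
  · have := m x i
    rwa [up_of h] at this

lemma le_up {V : (ι → Bool) → ℤ} (m : ∀ x i, V (dn x i) ≤ V (up x i)) (x : ι → Bool) (i : ι) :
    V x ≤ V (up x i) := by
  cases h : x i
  · have := m x i
    rwa [dn_of h] at this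
  · rw [up_of h]

theorem Good.comb {V : (ι → Bool) → ℤ} {W : (κ → Bool) → ℤ} {L : ℝ} {a b e e' : ℤ}
    (hL : 0 ≤ L) (hb : 0 < b) (hab : a ≤ b) (ha : 0 ≤ a)
    (hV : Good V L a b e) (hW : Good W L a b e') :
    Good (comb V W b) (L * √2) b (a + b) (e + e' + b) where
  nb := NB.comb hb hV.nb hW.nb hL hV.j2 hW.j2
  mono := by
    intro x i
    obtain ⟨z, w, rfl⟩ := exists_elim x
    rcases i with i | j
    · rw [up_inl, dn_inl, comb_elim, comb_elim]
      have := hV.mono z i
      linarith
    · rw [up_inr, dn_inr, comb_elim, comb_elim]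
      have h1 := hW.mono w j
      have h2 : W (dn w j) / b ≤ W (up w j) / b := Int.ediv_le_ediv hb h1
      have := mul_le_mul_of_nonneg_left h2 hb.le
      linarith
  j1 := by
    intro x i
    obtain ⟨z, w, rfl⟩ := exists_elim x
    rcases i with i | j
    · rw [up_inl, dn_inl, comb_elim, comb_elim]
      have := hV.j1 z i
      linarith
    · rw [up_inr, dn_inr, comb_elim, comb_elim]
      have h1 := hW.j2 w j j
      have h2 : W (up w j) / b - 1 ≤ W (dn w j) / b := by
        rw [Int.le_ediv_iff_mul_le hb]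
        have := Int.ediv_mul_le (W (up w j)) hb.ne'
        linarith
      have := mul_le_mul_of_nonneg_left h2 hb.le
      linarith
  j2 := by
    intro x i j
    obtain ⟨z, w, rfl⟩ := exists_elim x
    have key : ∀ p q : ℤ, p ≤ q + b → b * (p / b) ≤ b * (q / b) + b := by
      intro p q h
      have h2 : p / b - 1 ≤ q / b := by
        rw [Int.le_ediv_iff_mul_le hb]
        have := Int.ediv_mul_le p hb.ne'
        linarith
      have := mul_le_mul_of_nonneg_left h2 hb.le
      linarith
    rcases i with i | i <;> rcases j with j | j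
    · rw [up_inl, dn_inl, comb_elim, comb_elim]
      have := hV.j2 z i j
      linarith
    · rw [up_inl, dn_inr, comb_elim, comb_elim]
      have h1 : V (up z i) ≤ V z + a := by
        have h2 := hV.j1 z i
        have h3 := dn_le hV.mono z i
        linarith
      have h4 := key (W w) (W (dn w j)) (by
        have h5 := hW.j2 w j j
        have h6 := le_up hW.mono w j
        linarith)
      linarith
    · rw [up_inr, dn_inl, comb_elim, comb_elim]
      have h1 : V z ≤ V (dn z j) + a := by
        have h2 := hV.j1 z j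
        have h3 := le_up hV.mono z j
        linarith
      have h4 := key (W (up w i)) (W w) (by
        have h5 := hW.j2 w i i
        have h6 := dn_le hW.mono w i
        linarith)
      linarith
    · rw [up_inr, dn_inr, comb_elim, comb_elim]
      have h4 := key (W (up w i)) (W (dn w j)) (hW.j2 w i j)
      linarith
  le := by
    intro x
    obtain ⟨z, w, rfl⟩ := exists_elim x
    rw [comb_elim, cnt_elim]
    have h1 := hV.le z
    have h2 := hW.le w
    have h3 := Int.mul_ediv_self_le (x := W w) hb.ne'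
    linarith
  ge := by
    intro x
    obtain ⟨z, w, rfl⟩ := exists_elim x
    rw [comb_elim, cnt_elim]
    have h1 := hV.ge z
    have h2 := hW.ge w
    have h3 := Int.lt_mul_ediv_self_add (x := W w) hb
    linarith

lemma cnt_up {x : ι → Bool} {i : ι} : cnt (up x i) = cnt (dn x i) + 1 := by
  unfold cnt
  rw [← Finset.add_sum_erase _ _ (Finset.mem_univ i),
    ← Finset.add_sum_erase (a := i) _ (fun k => if dn x i k = true then (1:ℤ) else 0)
      (Finset.mem_univ i), up_self, dn_self]
  have : ∑ k ∈ univ.erase i, (if up x i k = true then (1:ℤ) else 0) =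
      ∑ k ∈ univ.erase i, (if dn x i k = true then (1:ℤ) else 0) := by
    apply Finset.sum_congr rfl
    intro k hk
    have hk' : k ≠ i := Finset.ne_of_mem_erase hk
    unfold up dn
    rw [Function.update_of_ne hk', Function.update_of_ne hk']
  rw [this]
  simp
  ring

/-- Trivial bound for the crossing forms. -/
lemma nb_card (V : (ι → Bool) → ℤ) : NB V (Fintype.card ι) := by
  intro τ a b
  unfold S
  have h1 : ∀ x : ι → Bool, ∀ i, (if x i = false ∧ V x < τ ∧ τ ≤ V (up x i)
      then a x * b (up x i) else 0) ≤ (a x ^ 2 + if x i = false then b (up x i) ^ 2 else 0) / 2 := by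
    intro x i
    by_cases h : x i = false ∧ V x < τ ∧ τ ≤ V (up x i)
    · rw [if_pos h, if_pos h.1]
      nlinarith [sq_nonneg (a x - b (up x i))]
    · rw [if_neg h]
      split_ifs <;> positivity
  have h2 : ∑ x : ι → Bool, ∑ i, (if x i = false ∧ V x < τ ∧ τ ≤ V (up x i)
      then a x * b (up x i) else 0) ≤
      ∑ x : ι → Bool, ∑ i, (a x ^ 2 + if x i = false then b (up x i) ^ 2 else 0) / 2 :=
    Finset.sum_le_sum fun x _ => Finset.sum_le_sum fun i _ => h1 x i
  refine h2.trans ?_
  have h3 : ∑ x : ι → Bool, ∑ i, (a x ^ 2 + if x i = false then b (up x i) ^ 2 else 0) / 2 =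
      (∑ x : ι → Bool, ∑ _i : ι, a x ^ 2 + ∑ i, ∑ x : ι → Bool,
        if x i = false then b (up x i) ^ 2 else 0) / 2 := by
    rw [Finset.sum_comm (f := fun i (x : ι → Bool) => if x i = false then b (up x i) ^ 2 else 0),
      ← Finset.sum_add_distrib, Finset.sum_div]
    apply Finset.sum_congr rfl; intro x _
    rw [← Finset.sum_add_distrib, Finset.sum_div]
  rw [h3]
  have h4 : ∑ x : ι → Bool, ∑ _i : ι, a x ^ 2 = Fintype.card ι * ∑ x, a x ^ 2 := by
    rw [Finset.mul_sum]
    apply Finset.sum_congr rfl; intro x _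
    rw [Finset.sum_const, Finset.card_univ, nsmul_eq_mul]
  have h5 : ∀ i : ι, ∑ x : ι → Bool, (if x i = false then b (up x i) ^ 2 else 0) ≤
      ∑ x, b x ^ 2 := by
    intro i
    rw [← Finset.sum_filter]
    have h6 : ∑ x ∈ univ.filter (fun x : ι → Bool => x i = false), b (up x i) ^ 2 =
        ∑ y ∈ univ.filter (fun y : ι → Bool => y i = true), b y ^ 2 := by
      apply Finset.sum_nbij' (fun x => up x i) (fun y => dn y i)
      · intro x _; simp [up_self]
      · intro y _; simp [dn_self]
      · intro x hx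
        exact dn_up (Finset.mem_filter.1 hx).2
      · intro y hy
        exact up_dn (Finset.mem_filter.1 hy).2
      · intro x _; rfl
    rw [h6]
    exact Finset.sum_le_sum_of_subset_of_nonneg (Finset.filter_subset _ _)
      fun _ _ _ => sq_nonneg _
  have h7 : ∑ i : ι, ∑ x : ι → Bool, (if x i = false then b (up x i) ^ 2 else 0) ≤
      Fintype.card ι * ∑ x, b x ^ 2 := by
    calc _ ≤ ∑ _i : ι, ∑ x, b x ^ 2 := Finset.sum_le_sum fun i _ => h5 i
      _ = _ := by rw [Finset.sum_const, Finset.card_univ, nsmul_eq_mul]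
  rw [h4]
  linarith

lemma good_cnt (ι : Type) [Fintype ι] [DecidableEq ι] :
    Good (cnt : (ι → Bool) → ℤ) (Fintype.card ι) 1 2 0 where
  nb := nb_card _
  mono := fun x i => by rw [cnt_up]; linarith
  j1 := fun x i => by rw [cnt_up]
  j2 := fun x i j => by
    have h1 : cnt (up x i) = cnt (dn x i) + 1 := cnt_up
    have h2 : cnt (up x j) = cnt (dn x j) + 1 := cnt_up
    have m : ∀ (x : ι → Bool) i, cnt (dn x i) ≤ cnt (up x i) := fun x i => by
      rw [cnt_up]; linarith
    have h3 := dn_le m x i
    have h4 := le_up m x j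
    linarith
  le := fun x => le_rfl
  ge := fun x => by simp

/-- The functions of the recursion exist. -/
theorem exists_good (m k : ℕ) : ∃ (ι : Type) (_ : Fintype ι) (_ : DecidableEq ι)
    (V : (ι → Bool) → ℤ), Fintype.card ι = m * 2 ^ k ∧
      Good V ((m : ℝ) * √2 ^ k) (Nat.fib (k + 2)) (Nat.fib (k + 3))
        (5 * 2 ^ k - Nat.fib (k + 5)) := by
  induction k with
  | zero =>
    refine ⟨Fin m, inferInstance, inferInstance, cnt, by simp, ?_⟩
    have h := good_cnt (Fin m)
    rw [Fintype.card_fin] at h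
    have e1 : Nat.fib (0 + 2) = 1 := rfl
    have e2 : Nat.fib (0 + 3) = 2 := rfl
    have e3 : Nat.fib (0 + 5) = 5 := rfl
    rw [e1, e2, e3]
    simpa using h
  | succ k ih =>
    obtain ⟨ι, i1, i2, V, hcard, hV⟩ := ih
    refine ⟨ι ⊕ ι, inferInstance, inferInstance, comb V V (Nat.fib (k + 3)), ?_, ?_⟩
    · rw [Fintype.card_sum, hcard]; ring
    · have hpos : 0 < Nat.fib (k + 3) := Nat.fib_pos.2 (by omega)
      have hmono : Nat.fib (k + 2) ≤ Nat.fib (k + 3) := Nat.fib_mono (by omega)
      have h := Good.comb (L := (m : ℝ) * √2 ^ k) (by positivity) (by exact_mod_cast hpos)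
        (by exact_mod_cast hmono) (by positivity) hV hV
      have e1 : (m : ℝ) * √2 ^ (k + 1) = (m : ℝ) * √2 ^ k * √2 := by ring
      have f4 : Nat.fib (k + 4) = Nat.fib (k + 2) + Nat.fib (k + 3) := Nat.fib_add_two
      have f5 : Nat.fib (k + 5) = Nat.fib (k + 3) + Nat.fib (k + 4) := Nat.fib_add_two
      have f6 : Nat.fib (k + 6) = Nat.fib (k + 4) + Nat.fib (k + 5) := Nat.fib_add_two
      have e2 : (Nat.fib (k + 1 + 3) : ℤ) = Nat.fib (k + 2) + Nat.fib (k + 3) := by
        have : k + 1 + 3 = k + 4 := by ring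
        rw [this, f4]; push_cast; ring
      have e3 : (5 * 2 ^ (k + 1) - Nat.fib (k + 1 + 5) : ℤ) =
          (5 * 2 ^ k - Nat.fib (k + 5)) + (5 * 2 ^ k - Nat.fib (k + 5)) + Nat.fib (k + 3) := by
        have h5 : k + 1 + 5 = k + 6 := by ring
        rw [h5, f6, f5, f4]; push_cast; ring
      have e4 : k + 1 + 2 = k + 3 := by ring
      rw [e1, e2, e3, e4]
      exact h

end H54SS
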